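import Pool.Agent.Helper96.VF.GoalsB

/-! # Packet VF-BRA: the conditions at `3^b` -/

set_option autoImplicit false

open Pool.Agent.Helper33.IR (rr ss om ze)
open Pool.Agent.Helper96.VF

namespace Pool.Agent.Helper86.VF

private lemma bpos (b : ℕ) : (0 : ℚ) < 4 ^ (Nat.log 4 (3 ^ b)) := by positivity

private lemma c1 (b : ℕ) : rr b < 2 ↔ 3 ^ b < 2 * 4 ^ (Nat.log 4 (3 ^ b)) := by
  unfold rr
  rw [div_lt_iff₀ (bpos b)]
  exact_mod_cast Iff.rfl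

private lemma c2 (b : ℕ) : 2 < rr b ↔ 2 * 4 ^ (Nat.log 4 (3 ^ b)) < 3 ^ b := by
  unfold rr
  rw [lt_div_iff₀ (bpos b)]
  exact_mod_cast Iff.rfl

private lemma c3 (b : ℕ) : 8 / 5 ≤ rr b ↔ 8 * 4 ^ (Nat.log 4 (3 ^ b)) ≤ 5 * 3 ^ b := by
  unfold rr
  rw [le_div_iff₀ (bpos b)]
  have : (8 / 5 * (4 : ℚ) ^ (Nat.log 4 (3 ^ b)) ≤ 3 ^ b) ↔
      (8 * (4 : ℚ) ^ (Nat.log 4 (3 ^ b)) ≤ 5 * 3 ^ b) := by
    constructor <;> intro h <;> linarith
  rw [this]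
  exact_mod_cast Iff.rfl

private lemma c4 (b : ℕ) : 1 < rr b ↔ 4 ^ (Nat.log 4 (3 ^ b)) < 3 ^ b := by
  unfold rr
  rw [lt_div_iff₀ (bpos b), one_mul]
  exact_mod_cast Iff.rfl

private lemma c5 (b : ℕ) : rr b ≤ 5 / 4 ↔ 4 * 3 ^ b ≤ 5 * 4 ^ (Nat.log 4 (3 ^ b)) := by
  unfold rr
  rw [div_le_iff₀ (bpos b)]
  have : ((3 : ℚ) ^ b ≤ 5 / 4 * 4 ^ (Nat.log 4 (3 ^ b))) ↔
      (4 * (3 : ℚ) ^ b ≤ 5 * 4 ^ (Nat.log 4 (3 ^ b))) := by
    constructor <;> intro h <;> linarith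
  rw [this]
  exact_mod_cast Iff.rfl

private lemma lo (b : ℕ) : 4 ^ (Nat.log 4 (3 ^ b)) ≤ 3 ^ b :=
  Nat.pow_log_le_self 4 (by positivity)

private lemma uniq (b j : ℕ) (h1 : 4 ^ j ≤ 3 ^ b) (h2 : 3 ^ b < 4 * 4 ^ j) :
    Nat.log 4 (3 ^ b) = j :=
  Nat.log_eq_of_pow_le_of_lt_pow h1 (by rw [pow_succ]; omega)

theorem gBRA : BRA := by
  intro b
  have hs : 3 ^ (b + 1) = 3 * 3 ^ b := by rw [pow_succ]; ring
  refine ⟨?_, ?_, ?_, ?_⟩
  · rw [c1]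
    constructor
    · rintro ⟨j, h1, h2⟩
      rw [uniq b j (by omega) (by omega)]
      omega
    · intro h
      have := lo b
      exact ⟨Nat.log 4 (3 ^ b), by omega, by omega⟩
  · rw [c2]
    constructor
    · rintro ⟨j, h1, h2⟩
      rw [uniq (b + 1) j (by omega) (by omega)]
      omega
    · intro h
      have h3 := Nat.lt_pow_succ_log_self (b := 4) (by norm_num) (3 ^ (b + 1))
      rw [Nat.succ_eq_add_one, pow_succ 4] at h3
      refine ⟨Nat.log 4 (3 ^ (b + 1)), ?_, ?_⟩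
      · omega
      · omega
  · rw [c3, c1]
    constructor
    · rintro ⟨j, h1, h2⟩
      rw [uniq b j (by omega) (by omega)]
      omega
    · rintro ⟨h1, h2⟩
      exact ⟨Nat.log 4 (3 ^ b), by omega, by omega⟩
  · rw [c4, c5]
    constructor
    · rintro ⟨j, h1, h2⟩
      have hj : 4 ^ (j + 1) = 4 * 4 ^ j := by rw [pow_succ]; ring
      rw [uniq (b + 1) (j + 1) (by omega) (by omega)]
      omega
    · rintro ⟨h1, h2⟩
      have h0 : Nat.log 4 (3 ^ (b + 1)) ≠ 0 := by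
        intro h
        rw [h] at h2
        have : 1 ≤ 3 ^ b := Nat.one_le_pow _ _ (by norm_num)
        omega
      obtain ⟨j, hj⟩ := Nat.exists_eq_succ_of_ne_zero h0
      rw [hj] at h1 h2
      have hj' : 4 ^ (Nat.succ j) = 4 * 4 ^ j := by rw [Nat.succ_eq_add_one, pow_succ]; ring
      rw [hj'] at h1 h2
      refine ⟨j, by omega, ?_⟩
      have h3 : 4 * 3 ^ (b + 1) ≠ 5 * (4 * 4 ^ j) := by
        intro h
        have h4 : 3 ∣ 5 * (4 * 4 ^ j) := ⟨4 * 3 ^ b, by omega⟩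
        have h5 : 3 ∣ 4 ^ (j + 1) := by
          have h6 : 5 * (4 * 4 ^ j) = 5 * 4 ^ (j + 1) := by rw [pow_succ]; ring
          rw [h6] at h4
          exact (Nat.Coprime.dvd_of_dvd_mul_left (by decide) h4)
        have h7 := Nat.Prime.dvd_of_dvd_pow Nat.prime_three h5
        omega
      omega

end Pool.Agent.Helper86.VF
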