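import Pool.Agent.Helper27.VF.Goals

/-!
# VF-HAL: Marshall Hall's theorem (weak form)
-/

set_option autoImplicit false

namespace Pool.Agent.Helper86.VF

open Pool.Agent.Helper27.VF

/-- A partial action of one element on a finite set extends to a permutation. -/
theorem exists_perm {Q H : Type*} [Group H] [MulAction H Q] (Δ : Set Q) (hΔ : Δ.Finite) (h : H) :
    ∃ σ : Equiv.Perm Δ, ∀ q : Δ, h • (q : Q) ∈ Δ → ((σ q : Δ) : Q) = h • (q : Q) := by
  classical
  have i1 : Finite Δ := hΔ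
  let e : {q : Δ // h • (q : Q) ∈ Δ} ≃ {q : Δ // h⁻¹ • (q : Q) ∈ Δ} :=
    { toFun := fun q => ⟨⟨h • (q.1 : Q), q.2⟩, by simp⟩
      invFun := fun q => ⟨⟨h⁻¹ • (q.1 : Q), q.2⟩, by simp⟩
      left_inv := fun q => by
        apply Subtype.ext
        apply Subtype.ext
        simp
      right_inv := fun q => by
        apply Subtype.ext
        apply Subtype.ext
        simp }
  refine ⟨e.extendSubtype, fun q hq => ?_⟩
  rw [Equiv.extendSubtype_apply_of_mem e q hq]
  rfl

theorem hal : HalStmt := by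
  intro n B hB hne
  classical
  obtain ⟨T, hT⟩ := hB
  obtain ⟨x, hx⟩ : ∃ x, x ∉ B := by
    by_contra h
    push Not at h
    exact hne ((Subgroup.eq_top_iff' B).2 h)
  let b : FreeGroup (Fin n) ⧸ B := ((1 : FreeGroup (Fin n)) : FreeGroup (Fin n) ⧸ B)
  let D : List (Fin n × Bool) → Set (FreeGroup (Fin n) ⧸ B) := fun l =>
    (fun l' => FreeGroup.mk l' • b) '' {l' | l' <:+ l}
  have Dfin : ∀ l, (D l).Finite := by
    intro l
    refine Set.Finite.image _ ?_
    refine (l.tails.toFinset.finite_toSet).subset ?_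
    intro l' hl'
    simpa using hl'
  let Δ : Set (FreeGroup (Fin n) ⧸ B) := D x.toWord ∪ ⋃ g ∈ T, D g.toWord
  have Δfin : Δ.Finite := (Dfin _).union (T.finite_toSet.biUnion fun g _ => Dfin _)
  have hb : b ∈ Δ := Or.inl ⟨[], List.nil_suffix, by
    change (1 : FreeGroup (Fin n)) • b = b
    exact one_smul _ _⟩
  choose σ hσ using fun i : Fin n =>
    exists_perm Δ Δfin (FreeGroup.of i)
  have key : ∀ l : List (Fin n × Bool), (∀ l', l' <:+ l → FreeGroup.mk l' • b ∈ Δ) →
      (((FreeGroup.lift σ) (FreeGroup.mk l) ⟨b, hb⟩ : Δ) : FreeGroup (Fin n) ⧸ B) =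
        FreeGroup.mk l • b := by
    intro l
    induction l with
    | nil =>
      intro _
      change (((FreeGroup.lift σ) (1 : FreeGroup (Fin n)) ⟨b, hb⟩ : Δ) : FreeGroup (Fin n) ⧸ B) =
        (1 : FreeGroup (Fin n)) • b
      rw [map_one, one_smul]
      rfl
    | cons a l ih =>
      intro hl
      have hl1 : ∀ l', l' <:+ l → FreeGroup.mk l' • b ∈ Δ := fun l' hl' =>
        hl l' (hl'.trans (List.suffix_cons a l))
      have ih1 := ih hl1
      have hl2 := hl (a :: l) (List.suffix_refl _)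
      obtain ⟨i, ε⟩ := a
      have hmk : FreeGroup.mk ((i, ε) :: l) = FreeGroup.mk [(i, ε)] * FreeGroup.mk l := by
        rw [FreeGroup.mul_mk]
        rfl
      rw [hmk] at hl2 ⊢
      rw [map_mul, mul_smul] at *
      rw [Equiv.Perm.mul_apply]
      have e1 : (FreeGroup.lift σ) (FreeGroup.mk l) ⟨b, hb⟩ =
          ⟨FreeGroup.mk l • b, hl1 l (List.suffix_refl _)⟩ := Subtype.ext ih1
      rw [e1]
      cases ε with
      | true =>
        change ((((FreeGroup.lift σ) (FreeGroup.of i)) _ : Δ) : FreeGroup (Fin n) ⧸ B) = _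
        rw [FreeGroup.lift_apply_of]
        exact hσ i _ hl2
      | false =>
        have hof : (FreeGroup.mk [(i, false)] : FreeGroup (Fin n)) = (FreeGroup.of i)⁻¹ := rfl
        rw [hof] at hl2 ⊢
        rw [map_inv, FreeGroup.lift_apply_of]
        have e2 := hσ i ⟨(FreeGroup.of i)⁻¹ • FreeGroup.mk l • b, hl2⟩ (by
          simpa using hl1 l (List.suffix_refl _))
        have e3 : σ i ⟨(FreeGroup.of i)⁻¹ • FreeGroup.mk l • b, hl2⟩ =
            ⟨FreeGroup.mk l • b, hl1 l (List.suffix_refl _)⟩ := by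
          apply Subtype.ext
          rw [e2]
          simp
        rw [← e3]
        change (((σ i).symm (σ i _) : Δ) : FreeGroup (Fin n) ⧸ B) = _
        rw [Equiv.symm_apply_apply]
  let L : Subgroup (FreeGroup (Fin n)) :=
    (MulAction.stabilizer (Equiv.Perm Δ) (⟨b, hb⟩ : Δ)).comap (FreeGroup.lift σ)
  have memL : ∀ g : FreeGroup (Fin n), g ∈ L ↔ (FreeGroup.lift σ) g ⟨b, hb⟩ = ⟨b, hb⟩ := by
    intro g
    exact Iff.rfl
  have hkey : ∀ g : FreeGroup (Fin n), D g.toWord ⊆ Δ →
      (((FreeGroup.lift σ) g ⟨b, hb⟩ : Δ) : FreeGroup (Fin n) ⧸ B) = g • b := by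
    intro g hg
    have := key g.toWord (fun l' hl' => hg ⟨l', hl', rfl⟩)
    rwa [FreeGroup.mk_toWord] at this
  have hstab : ∀ g : FreeGroup (Fin n), g • b = b ↔ g ∈ B := by
    intro g
    change ((g * 1 : FreeGroup (Fin n)) : FreeGroup (Fin n) ⧸ B) = _ ↔ _
    rw [mul_one, eq_comm, QuotientGroup.eq]
    simp
  refine ⟨L, ?_, ?_, ?_⟩
  · rw [← hT, Subgroup.closure_le]
    intro g hg
    have hgB : g ∈ B := hT ▸ Subgroup.subset_closure hg
    rw [SetLike.mem_coe, memL]
    apply Subtype.ext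
    rw [hkey g (fun q hq => Or.inr (Set.mem_biUnion hg hq))]
    exact (hstab g).2 hgB
  · intro htop
    have hxL : x ∈ L := htop ▸ Subgroup.mem_top x
    rw [memL] at hxL
    have h1 := hkey x (fun q hq => Or.inl hq)
    rw [hxL] at h1
    exact hx ((hstab x).1 h1.symm)
  · have i1 : Finite Δ := Δfin
    have i2 : Finite (Equiv.Perm Δ) := inferInstance
    have i3 : ((MulAction.stabilizer (Equiv.Perm Δ) (⟨b, hb⟩ : Δ)).subgroupOf
        (FreeGroup.lift σ).range).FiniteIndex := inferInstance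
    refine ⟨?_⟩
    rw [Subgroup.index_comap]
    exact i3.index_ne_zero

end Pool.Agent.Helper86.VF
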