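import Pool.Agent.Helper27.VF.Goals

/-!
# VF-KND: a complete minor from infinitely many vertices which are not separated
-/

set_option autoImplicit false

namespace Pool.Agent.Helper86.VF

open Pool.Agent.Helper27.VF

universe u

variable {W : Type u}

/-- Any two points of `A` are joined inside `A`. -/
def PreC (G : SimpleGraph W) (A : Set W) : Prop :=
  ∀ a ∈ A, ∀ b ∈ A, Relation.ReflTransGen (fun x y => G.Adj x y ∧ y ∈ A) a b

theorem rtg_mono {G : SimpleGraph W} {A B : Set W} (h : A ⊆ B) {a b : W}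
    (hab : Relation.ReflTransGen (fun x y => G.Adj x y ∧ y ∈ A) a b) :
    Relation.ReflTransGen (fun x y => G.Adj x y ∧ y ∈ B) a b :=
  Relation.ReflTransGen.mono (fun _ _ h1 => ⟨h1.1, h h1.2⟩) _ _ hab

theorem preC_union {G : SimpleGraph W} {A B : Set W} (hA : PreC G A) (hB : PreC G B) {u v : W}
    (hu : u ∈ A) (hv : v ∈ B) (huv : G.Adj u v) : PreC G (A ∪ B) := by
  have e1 : Relation.ReflTransGen (fun x y => G.Adj x y ∧ y ∈ A ∪ B) u v :=
    Relation.ReflTransGen.single ⟨huv, Or.inr hv⟩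
  have e2 : Relation.ReflTransGen (fun x y => G.Adj x y ∧ y ∈ A ∪ B) v u :=
    Relation.ReflTransGen.single ⟨huv.symm, Or.inl hu⟩
  rintro a (ha | ha) b (hb | hb)
  · exact rtg_mono Set.subset_union_left (hA a ha b hb)
  · exact ((rtg_mono Set.subset_union_left (hA a ha u hu)).trans e1).trans
      (rtg_mono Set.subset_union_right (hB v hv b hb))
  · exact ((rtg_mono Set.subset_union_right (hB a ha v hv)).trans e2).trans
      (rtg_mono Set.subset_union_left (hA u hu b hb))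
  · exact rtg_mono Set.subset_union_right (hB a ha b hb)

theorem preC_singleton (G : SimpleGraph W) (a : W) : PreC G {a} := by
  rintro x rfl y rfl
  exact Relation.ReflTransGen.refl

theorem preC_empty (G : SimpleGraph W) : PreC G (∅ : Set W) := by
  intro a ha
  exact absurd ha (Set.notMem_empty a)

/-- Finite stages of the construction of a complete minor. -/
structure Ok (G : SimpleGraph W) (Y : Set W) (β : ℕ → Set W) : Prop where
  fin : ∀ i, (β i).Finite
  disj : ∀ i j x, x ∈ β i → x ∈ β j → i = j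
  pre : ∀ i, PreC G (β i)
  supp : ∃ N, ∀ i, N ≤ i → β i = ∅
  hit : ∀ i, (β i).Nonempty → ∃ y ∈ Y, y ∈ β i

theorem Ok.union_fin {G : SimpleGraph W} {Y : Set W} {β : ℕ → Set W} (h : Ok G Y β) :
    (⋃ i, β i).Finite := by
  obtain ⟨N, hN⟩ := h.supp
  refine (Set.Finite.biUnion (Set.finite_Iio N) (fun i _ => h.fin i)).subset ?_
  intro x hx
  obtain ⟨i, hi⟩ := Set.mem_iUnion.1 hx
  refine Set.mem_biUnion (x := i) ?_ hi
  by_contra hcon
  rw [hN i (by simpa using hcon)] at hi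
  exact hi

theorem Ok.update {G : SimpleGraph W} {Y : Set W} {β : ℕ → Set W} (h : Ok G Y β) (i : ℕ)
    (P : Set W) (hP : P.Finite) (hd : ∀ x ∈ P, x ∉ ⋃ k, β k) (hpre : PreC G (β i ∪ P))
    (hh : ∃ y ∈ Y, y ∈ β i ∪ P) :
    Ok G Y (Function.update β i (β i ∪ P)) := by
  have key : ∀ k x, x ∈ Function.update β i (β i ∪ P) k → (x ∈ β k ∨ (k = i ∧ x ∈ P)) := by
    intro k x hx
    by_cases hk : k = i
    · subst hk
      rw [Function.update_self] at hx
      rcases hx with hx | hx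
      · exact Or.inl hx
      · exact Or.inr ⟨rfl, hx⟩
    · rw [Function.update_of_ne hk] at hx
      exact Or.inl hx
  refine ⟨?_, ?_, ?_, ?_, ?_⟩
  · intro k
    by_cases hk : k = i
    · subst hk
      rw [Function.update_self]
      exact (h.fin k).union hP
    · rw [Function.update_of_ne hk]
      exact h.fin k
  · intro k l x hx hx'
    rcases key k x hx with h1 | ⟨h1, h1'⟩ <;> rcases key l x hx' with h2 | ⟨h2, h2'⟩
    · exact h.disj k l x h1 h2
    · exact absurd (Set.mem_iUnion.2 ⟨k, h1⟩) (hd x h2')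
    · exact absurd (Set.mem_iUnion.2 ⟨l, h2⟩) (hd x h1')
    · rw [h1, h2]
  · intro k
    by_cases hk : k = i
    · subst hk
      rw [Function.update_self]
      exact hpre
    · rw [Function.update_of_ne hk]
      exact h.pre k
  · obtain ⟨N, hN⟩ := h.supp
    refine ⟨max N (i + 1), ?_⟩
    intro k hk
    have hki : k ≠ i := by
      have := le_of_max_le_right hk
      omega
    rw [Function.update_of_ne hki]
    exact hN k (le_of_max_le_left hk)
  · intro k hk
    by_cases hki : k = i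
    · subst hki
      rw [Function.update_self]
      exact hh
    · rw [Function.update_of_ne hki] at hk ⊢
      exact h.hit k hk

theorem update_le {β : ℕ → Set W} (i : ℕ) (P : Set W) (k : ℕ) :
    β k ⊆ Function.update β i (β i ∪ P) k := by
  by_cases hk : k = i
  · subst hk
    rw [Function.update_self]
    exact Set.subset_union_left
  · rw [Function.update_of_ne hk]

theorem Ok.nonempty {G : SimpleGraph W} {Y : Set W} {β : ℕ → Set W} (hinf : Y.Infinite)
    (h : Ok G Y β) (i : ℕ) :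
    ∃ β', Ok G Y β' ∧ (∀ k, β k ⊆ β' k) ∧ (β' i).Nonempty := by
  by_cases hi : (β i).Nonempty
  · exact ⟨β, h, fun k => le_refl _, hi⟩
  · have he : β i = ∅ := Set.not_nonempty_iff_eq_empty.1 hi
    obtain ⟨v, hvY, hv⟩ := (hinf.sdiff h.union_fin).nonempty
    refine ⟨Function.update β i (β i ∪ {v}), h.update i {v} (Set.finite_singleton _) ?_ ?_
      ⟨v, hvY, Or.inr rfl⟩, update_le i {v}, ⟨v, ?_⟩⟩
    · rintro x rfl
      exact hv
    · rw [he, Set.empty_union]
      exact preC_singleton G v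
    · rw [Function.update_self]
      exact Or.inr rfl

theorem Ok.step {G : SimpleGraph W} {Y : Set W} {β : ℕ → Set W} (hinf : Y.Infinite)
    (hconn : ∀ F : Set W, F.Finite → ∀ a ∈ Y, ∀ b ∈ Y, a ∉ F → b ∉ F →
      Relation.ReflTransGen (fun x y => G.Adj x y ∧ y ∉ F) a b)
    (h : Ok G Y β) (i j : ℕ) (hij : i ≠ j) :
    ∃ β', Ok G Y β' ∧ (∀ k, β k ⊆ β' k) ∧ ∃ a ∈ β' i, ∃ b ∈ β' j, G.Adj a b := by
  classical
  obtain ⟨β₁, h₁, hle₁, hne₁⟩ := h.nonempty hinf i
  obtain ⟨β₂, h₂, hle₂, hne₂⟩ := h₁.nonempty hinf j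
  obtain ⟨u, huY, hu⟩ := h₂.hit i (hne₁.mono (hle₂ i))
  obtain ⟨w, hwY, hw⟩ := h₂.hit j hne₂
  let F : Set W := {x | ∃ k, k ≠ i ∧ k ≠ j ∧ x ∈ β₂ k}
  have hF : F.Finite := h₂.union_fin.subset (by
    rintro x ⟨k, _, _, hk⟩
    exact Set.mem_iUnion.2 ⟨k, hk⟩)
  have huF : u ∉ F := by
    rintro ⟨k, hk, _, hk'⟩
    exact hk (h₂.disj k i u hk' hu)
  have hwF : w ∉ F := by
    rintro ⟨k, _, hk, hk'⟩
    exact hk (h₂.disj k j w hk' hw)
  have path := hconn F hF u huY w hwY huF hwF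
  have key : ∀ v, Relation.ReflTransGen (fun x y => G.Adj x y ∧ y ∉ F) u v →
      (∃ P : Set W, P.Finite ∧ (∀ x ∈ P, x ∉ ⋃ k, β₂ k) ∧ PreC G (β₂ i ∪ P) ∧
        ∃ a ∈ β₂ i ∪ P, ∃ b ∈ β₂ j, G.Adj a b) ∨
      (∃ P : Set W, P.Finite ∧ (∀ x ∈ P, x ∉ ⋃ k, β₂ k) ∧ PreC G (β₂ i ∪ P) ∧
        v ∈ β₂ i ∪ P) := by
    intro v hv
    induction hv with
    | refl =>
      refine Or.inr ⟨∅, Set.finite_empty, fun x hx => absurd hx (Set.notMem_empty x), ?_,
        Or.inl hu⟩
      rw [Set.union_empty]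
      exact h₂.pre i
    | tail hab hbc ih =>
      rename_i b c
      rcases ih with ih | ⟨P, hP, hPd, hPp, hPb⟩
      · exact Or.inl ih
      · by_cases hcj : c ∈ β₂ j
        · exact Or.inl ⟨P, hP, hPd, hPp, b, hPb, c, hcj, hbc.1⟩
        · by_cases hci : c ∈ β₂ i
          · exact Or.inr ⟨P, hP, hPd, hPp, Or.inl hci⟩
          · refine Or.inr ⟨P ∪ {c}, hP.union (Set.finite_singleton _), ?_, ?_,
              Or.inr (Or.inr rfl)⟩
            · rintro x (hx | rfl)
              · exact hPd x hx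
              · intro hx
                obtain ⟨k, hk⟩ := Set.mem_iUnion.1 hx
                refine hbc.2 ⟨k, ?_, ?_, hk⟩
                · rintro rfl
                  exact hci hk
                · rintro rfl
                  exact hcj hk
            · rw [← Set.union_assoc]
              exact preC_union hPp (preC_singleton G c) hPb rfl hbc.1
  rcases key w path with ⟨P, hP, hPd, hPp, a, ha, b, hb, hab⟩ | ⟨P, hP, hPd, hPp, hwP⟩
  · refine ⟨Function.update β₂ i (β₂ i ∪ P), h₂.update i P hP hPd hPp ⟨u, huY, Or.inl hu⟩, ?_,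
      a, ?_, b, ?_, hab⟩
    · intro k
      exact ((hle₁ k).trans (hle₂ k)).trans (update_le i P k)
    · rw [Function.update_self]
      exact ha
    · rw [Function.update_of_ne (Ne.symm hij)]
      exact hb
  · exfalso
    rcases hwP with h3 | h3
    · exact hij (h₂.disj i j w h3 hw)
    · exact hPd w h3 (Set.mem_iUnion.2 ⟨j, hw⟩)

/-- Pairwise unseparated vertices give a complete minor on `ℕ`. -/
theorem complete_minor {G : SimpleGraph W} {Y : Set W} (hinf : Y.Infinite)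
    (hconn : ∀ F : Set W, F.Finite → ∀ a ∈ Y, ∀ b ∈ Y, a ∉ F → b ∉ F →
      Relation.ReflTransGen (fun x y => G.Adj x y ∧ y ∉ F) a b) :
    ∃ B : ℕ → Set W, (∀ i, (B i).Nonempty) ∧ (∀ i, PreC G (B i)) ∧
      (∀ i j x, x ∈ B i → x ∈ B j → i = j) ∧
      (∀ i j, i ≠ j → ∃ a ∈ B i, ∃ b ∈ B j, G.Adj a b) := by
  classical
  have step : ∀ (β : {β : ℕ → Set W // Ok G Y β}) (p : ℕ × ℕ),
      ∃ β' : {β : ℕ → Set W // Ok G Y β},
      (∀ k, β.1 k ⊆ β'.1 k) ∧ (p.1 ≠ p.2 → ∃ a ∈ β'.1 p.1, ∃ b ∈ β'.1 p.2, G.Adj a b) := by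
    rintro ⟨β, hβ⟩ ⟨i, j⟩
    by_cases hij : i = j
    · exact ⟨⟨β, hβ⟩, fun k => le_refl _, fun h => absurd hij h⟩
    · obtain ⟨β', h1, h2, h3⟩ := hβ.step hinf hconn i j hij
      exact ⟨⟨β', h1⟩, h2, fun _ => h3⟩
  choose nxt hnxt1 hnxt2 using step
  have h0 : Ok G Y (fun _ => (∅ : Set W)) :=
    ⟨fun _ => Set.finite_empty, fun _ _ x hx => absurd hx (Set.notMem_empty x),
      fun _ => preC_empty G, ⟨0, fun _ _ => rfl⟩,
      fun _ hx => absurd hx Set.not_nonempty_empty⟩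
  let seq : ℕ → {β : ℕ → Set W // Ok G Y β} := fun n =>
    Nat.rec ⟨fun _ => (∅ : Set W), h0⟩ (fun n β => nxt β (Nat.unpair n)) n
  have hseq : ∀ n, seq (n + 1) = nxt (seq n) (Nat.unpair n) := fun n => rfl
  have hmono1 : ∀ n k, (seq n).1 k ⊆ (seq (n + 1)).1 k := by
    intro n k
    rw [hseq]
    exact hnxt1 _ _ k
  have hmono : ∀ m n, m ≤ n → ∀ k, (seq m).1 k ⊆ (seq n).1 k := by
    intro m n hmn k
    induction hmn with
    | refl => exact le_refl _
    | step _ ih => exact ih.trans (hmono1 _ k)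
  have hadj : ∀ i j, i ≠ j → ∃ n, ∃ a ∈ (seq n).1 i, ∃ b ∈ (seq n).1 j, G.Adj a b := by
    intro i j hij
    refine ⟨Nat.pair i j + 1, ?_⟩
    rw [hseq, Nat.unpair_pair]
    exact hnxt2 _ (i, j) hij
  refine ⟨fun i => ⋃ n, (seq n).1 i, ?_, ?_, ?_, ?_⟩
  · intro i
    obtain ⟨n, a, ha, _⟩ := hadj i (i + 1) (by omega)
    exact ⟨a, Set.mem_iUnion.2 ⟨n, ha⟩⟩
  · intro i a ha b hb
    obtain ⟨m, hm⟩ := Set.mem_iUnion.1 ha
    obtain ⟨n, hn⟩ := Set.mem_iUnion.1 hb
    have h1 := hmono m (max m n) (le_max_left _ _) i hm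
    have h2 := hmono n (max m n) (le_max_right _ _) i hn
    exact rtg_mono (Set.subset_iUnion (fun n => (seq n).1 i) (max m n))
      ((seq (max m n)).2.pre i a h1 b h2)
  · intro i j x hx hx'
    obtain ⟨m, hm⟩ := Set.mem_iUnion.1 hx
    obtain ⟨n, hn⟩ := Set.mem_iUnion.1 hx'
    exact (seq (max m n)).2.disj i j x (hmono m (max m n) (le_max_left _ _) i hm)
      (hmono n (max m n) (le_max_right _ _) j hn)
  · intro i j hij
    obtain ⟨n, a, ha, b, hb, hab⟩ := hadj i j hij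
    exact ⟨a, Set.mem_iUnion.2 ⟨n, ha⟩, b, Set.mem_iUnion.2 ⟨n, hb⟩, hab⟩

theorem induce_connected {G : SimpleGraph W} {A : Set W} (hne : A.Nonempty) (h : PreC G A) :
    (G.induce A).Connected := by
  have key : ∀ a (ha : a ∈ A) b, Relation.ReflTransGen (fun x y => G.Adj x y ∧ y ∈ A) a b →
      ∃ hb : b ∈ A, (G.induce A).Reachable ⟨a, ha⟩ ⟨b, hb⟩ := by
    intro a ha b hab
    induction hab with
    | refl => exact ⟨ha, SimpleGraph.Reachable.refl _⟩
    | tail _ hbc ih =>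
      obtain ⟨hb, h1⟩ := ih
      refine ⟨hbc.2, h1.trans (SimpleGraph.Adj.reachable ?_)⟩
      exact hbc.1
  obtain ⟨a₀, ha₀⟩ := hne
  have i1 : Nonempty A := ⟨⟨a₀, ha₀⟩⟩
  refine SimpleGraph.Connected.mk ?_
  rintro ⟨a, ha⟩ ⟨b, hb⟩
  exact (key a ha b (h a ha b hb)).2

theorem knd : KndStmt.{u} := by
  intro W G Y hY hsep
  classical
  have hconn : ∀ F : Set W, F.Finite → ∀ a ∈ Y, ∀ b ∈ Y, a ∉ F → b ∉ F →
      Relation.ReflTransGen (fun x y => G.Adj x y ∧ y ∉ F) a b := by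
    intro F hF a ha b hb haF hbF
    by_contra hcon
    let C : Set W := {x | Relation.ReflTransGen (fun x y => G.Adj x y ∧ y ∉ F) a x}
    have hCF : ∀ x ∈ C, x ∉ F := by
      intro x hx
      have hx' : Relation.ReflTransGen (fun x y => G.Adj x y ∧ y ∉ F) a x := hx
      induction hx' with
      | refl => exact haF
      | tail _ h2 _ => exact h2.2
    refine hsep a ha b hb (C, (C ∪ F)ᶜ) ⟨?_, ?_, ?_⟩ ⟨Relation.ReflTransGen.refl, ?_⟩
    · intro x hx hx'
      exact hx' (Or.inl hx)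
    · refine hF.subset ?_
      intro x hx
      rw [mem_sep] at hx
      obtain ⟨h1, h2⟩ := hx
      have h3 : x ∈ C ∪ F := by
        by_contra h3
        exact h2 h3
      exact h3.resolve_left h1
    · intro x hx y hy hxy
      have hyF : y ∉ F := fun h => hy (Or.inr h)
      exact hy (Or.inl (Relation.ReflTransGen.tail hx ⟨hxy, hyF⟩))
    · rintro (h1 | h1)
      · exact hcon h1
      · exact hbF h1
  obtain ⟨B, h1, h2, h3, h4⟩ := complete_minor hY hconn
  refine ⟨B, fun i => induce_connected (h1 i) (h2 i), ?_, h4⟩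
  intro i j hij
  rw [Set.disjoint_left]
  intro x hx hx'
  exact hij (h3 i j x hx hx')

end Pool.Agent.Helper86.VF
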