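import Pool.Agent.Helper96.VF.Goals

/-!
Project VF, packet R5: coordinates of `m` and `5m`, `7m`.
-/

set_option autoImplicit false

namespace Pool.Agent.Helper86.VF

open Pool.Agent.Helper96.VF

/-- exponents: from `a^j' < a^j` and `a^j < a^(j'+3)` -/
theorem exps {a j j' : ℕ} (ha : 1 < a) (h1 : a ^ j' < a ^ j) (h2 : a ^ j < a ^ (j' + 3)) :
    j = j' + 1 ∨ j = j' + 2 := by
  have h3 := (Nat.pow_lt_pow_iff_right ha).1 h1
  have h4 := (Nat.pow_lt_pow_iff_right ha).1 h2
  omega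

theorem core {a c n m x y j j' : ℕ} (hm : 0 < m) (ha : 1 < a) (hc : a < c) (hca : c < a * a)
    (hx : x = a ^ j * m) (hy : y = a ^ j' * (c * m)) (hx1 : x ≤ n) (hx2 : n < a * x)
    (hy1 : y ≤ n) (hy2 : n < a * y) :
    c * x = a * y ∨ c * x = a * a * y := by
  have h1 : y < a * x := lt_of_le_of_lt hy1 hx2
  have h2 : x < a * y := lt_of_le_of_lt hx1 hy2
  subst hx hy
  have h3 : a ^ j' * c < a ^ (j + 1) := by
    have : (a ^ j' * c) * m < (a ^ (j + 1)) * m := by
      rw [pow_succ]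
      linarith [h1, mul_assoc (a ^ j') c m, mul_left_comm a (a ^ j) m]
    exact Nat.lt_of_mul_lt_mul_right this
  have h4 : a ^ j < a ^ (j' + 1) * c := by
    have : a ^ j * m < (a ^ (j' + 1) * c) * m := by
      have e : a * (a ^ j' * (c * m)) = (a ^ (j' + 1) * c) * m := by
        rw [pow_succ]
        ring
      rw [← e]
      exact h2
    exact Nat.lt_of_mul_lt_mul_right this
  have h5 : a ^ j' < a ^ j := by
    have h6 : a ^ j' * a < a ^ (j + 1) :=
      lt_trans (Nat.mul_lt_mul_of_pos_left hc (pow_pos (by omega) _)) h3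
    rw [pow_succ] at h6
    exact Nat.lt_of_mul_lt_mul_right h6
  have h6 : a ^ j < a ^ (j' + 3) := by
    refine lt_trans h4 ?_
    have e : a ^ (j' + 3) = a ^ (j' + 1) * (a * a) := by ring
    rw [e]
    exact Nat.mul_lt_mul_of_pos_left hca (pow_pos (by omega) _)
  rcases exps ha h5 h6 with h | h
  · left
    subst h
    ring
  · right
    subst h
    ring

theorem core' {n m c p q p' q' : ℕ} (hm : 0 < m) (h : Co n m p q) (h' : Co n (c * m) p' q')
    (hc : 4 < c) (hc' : c < 9) :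
    (c * p = 4 * p' ∨ c * p = 16 * p') ∧ (c * q = 3 * q' ∨ c * q = 9 * q') := by
  obtain ⟨⟨j, hj⟩, ⟨b, hb⟩, h1, h2, h3, h4⟩ := h
  obtain ⟨⟨j', hj'⟩, ⟨b', hb'⟩, h1', h2', h3', h4'⟩ := h'
  exact ⟨core hm (by norm_num) hc (by omega) hj hj' h1 h2 h1' h2',
    core hm (by norm_num) (by omega) (by omega) hb hb' h3 h4 h3' h4'⟩

/-- Packet R5. -/
theorem gR5 : R5 := by
  intro n m p q p' q' hm h h'
  exact core' hm h h' (by norm_num) (by norm_num)

/-- Packet R7. -/
theorem gR7 : R7 := by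
  intro n m p q p' q' hm h h'
  exact core' hm h h' (by norm_num) (by norm_num)

end Pool.Agent.Helper86.VF
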