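import Pool.Agent.Helper96.VF.Goals

/-!
Project VF, packet TILE: a pigeonhole lemma.
-/

set_option autoImplicit false

namespace Pool.Agent.Helper86.VF

open Pool.Agent.Helper96.VF

/-- Packet TILE. -/
theorem gTILE : TILE := by
  intro D x l u
  induction D using Finset.induction_on_max generalizing l with
  | empty =>
    intro _ _
    rw [Finset.card_empty]
    refine ⟨Nat.zero_le _, fun _ => ⟨fun h => ?_, fun h => ?_⟩⟩
    · exact absurd h (by norm_num)
    · exact absurd h (by norm_num)
  | insert a s hs ih =>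
    intro h1 h2
    have ha : a ∉ s := fun h => lt_irrefl _ (hs a h)
    have h3 : ∀ b ∈ s, x a + 2 ≤ x b ∧ x b ≤ u := fun b hb =>
      ⟨h1 b (Finset.mem_insert_of_mem hb) a (Finset.mem_insert_self a s) (hs b hb),
        (h2 b (Finset.mem_insert_of_mem hb)).2⟩
    obtain ⟨i1, i2⟩ := ih (x a + 2)
      (fun b hb b' hb' => h1 b (Finset.mem_insert_of_mem hb) b' (Finset.mem_insert_of_mem hb')) h3
    have h4 := h2 a (Finset.mem_insert_self a s)
    rw [Finset.card_insert_of_notMem ha]
    refine ⟨by clear i2; omega, fun h5 => ?_⟩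
    have e1 : x a = l := by clear i2; omega
    have e2 : 2 * s.card = u + 2 - (x a + 2) := by clear i2; omega
    refine ⟨fun _ => ⟨a, Finset.mem_insert_self a s, e1⟩, fun h6 => ?_⟩
    obtain ⟨b, hb, hxb⟩ := (i2 e2).1 (Nat.le_of_succ_le_succ h6)
    exact ⟨b, Finset.mem_insert_of_mem hb, by rw [hxb, e1]⟩

end Pool.Agent.Helper86.VF
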